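import Pool.Agent.Q150.PegDefs

/-!
# Hooked arcs and good points of a Jordan curve: definitions
-/

namespace Q218.SQ

open Q150.Peg Set

/-- The arc `c [x, y]` of the closed curve `c` (of period `1`) carries a hook of the kind `(κ, σ)`:
some point `V` of the arc forms with the end points `P`, `Q` of the arc an isosceles right triangle
with right angle at `P` or at `Q` (`V = P + κ (Q - P)` or `V = Q + κ (P - Q)`), whose fourth point
(the one completing the square) is strictly inside the curve if `σ = 1` and strictly outside if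
`σ = -1`. -/
def Hooked (c : ℝ → ℂ) (κ : ℂ) (σ x y : ℝ) : Prop :=
  x < y ∧ y < x + 1 ∧ ∃ u, x < u ∧ u < y ∧ (Tri c κ σ x y u ∨ Tri c κ σ y x u)

/-- The arc `c [x, y]` is cut by finitely many points into one or more adjacent arcs
`c [t₀, t₁], …, c [tₖ₋₁, tₖ]`, `x = t₀ < ⋯ < tₖ = y`, each of which carries a hook of the kind
`(κ, σ)`. -/
def Chain (c : ℝ → ℂ) (κ : ℂ) (σ x y : ℝ) : Prop := Relation.TransGen (Hooked c κ σ) x y

/-- The arc `c [x, y]` is shorter than `1 + √2` times the distance of its end points. -/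
def ShortArc (c : ℝ → ℂ) (x y : ℝ) : Prop :=
  eVariationOn c (Icc x y) < ENNReal.ofReal ((1 + √2) * ‖c y - c x‖)

/-- `c b` is inside an arc `c [α, β]`, of whatever size, such that all arcs `c [x, β]` with
`α ≤ x ≤ b` and all arcs `c [α, y]` with `b ≤ y ≤ β` are shorter than `1 + √2` times the distance
of their end points. -/
def GoodArc (c : ℝ → ℂ) (b : ℝ) : Prop :=
  ∃ α β : ℝ, α < b ∧ b < β ∧ β < α + 1 ∧ (∀ x ∈ Icc α b, ShortArc c x β) ∧
    ∀ y ∈ Icc b β, ShortArc c α y

/-- Some neighbourhood of `b` satisfies the three-point condition with the constant `1 + √2`. -/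
def LocalThreePoint (c : ℝ → ℂ) (b : ℝ) : Prop :=
  ∃ ε > 0, ∀ x u y : ℝ, b - ε < x → x < u → u < y → y < b + ε → ThreePoint c x u y

end Q218.SQ
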