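import Pool.Agent.Q150.PegB
import Pool.Agent.Q218.SQ.Defs

/-!
# Chains of hooked arcs in Jordan curves without inscribed squares
-/

namespace Q218.SQ

open Q150.Peg Set Filter Topology

/-- Connected families of hooked arcs. -/
theorem fam {c : ℝ → ℂ} (hJ : IsJordan c) (hno : ¬ HasSquare c) {κ : ℂ}
    (hκ : κ = Complex.I ∨ κ = -Complex.I) {σ : ℝ} (hσ : σ = 1 ∨ σ = -1) {δ : ℝ} (hδ : 0 < δ)
    (hδ2 : δ < 1 / 2) :
    ∃ T : Set (AddCircle (1 : ℝ) × ℝ), IsConnected T ∧ (∃ p ∈ T, p.2 = δ) ∧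
      (∃ p ∈ T, p.2 = 1 - δ) ∧ (∀ p ∈ T, δ ≤ p.2) ∧
      ∀ p ∈ T, ∀ x : ℝ, (x : AddCircle (1 : ℝ)) = p.1 → Hooked c κ σ x (x + p.2) := by
  have L := isJordan_loop hJ
  have J := isJordan_inj hJ
  obtain ⟨T, hT, ⟨p, hp, ep⟩, ⟨q, hq, eq⟩, hTb, hcase⟩ :=
    Pool.Agent.Y765.Sq.tri_fam L J hno hκ hσ hδ hδ2
  rcases hcase with h | h
  · refine ⟨T, hT, ⟨p, hp, ep⟩, ⟨q, hq, eq⟩, fun r hr => (hTb r hr).1, fun r hr x hx => ?_⟩
    obtain ⟨u, a1, a2, a3⟩ := h r hr x hx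
    have hb := hTb r hr
    exact ⟨by linarith, by linarith [hb.2], u, a1, a2, Or.inl a3⟩
  · have ch : Continuous fun p : AddCircle (1 : ℝ) × ℝ =>
        ((p.1 + (p.2 : AddCircle (1 : ℝ)), 1 - p.2) : AddCircle (1 : ℝ) × ℝ) :=
      (continuous_fst.add ((AddCircle.continuous_mk' 1).comp continuous_snd)).prodMk
        (continuous_const.sub continuous_snd)
    refine ⟨(fun p : AddCircle (1 : ℝ) × ℝ =>
        ((p.1 + (p.2 : AddCircle (1 : ℝ)), 1 - p.2) : AddCircle (1 : ℝ) × ℝ)) '' T,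
      hT.image _ ch.continuousOn, ⟨_, ⟨q, hq, rfl⟩, ?_⟩, ⟨_, ⟨p, hp, rfl⟩, ?_⟩, ?_, ?_⟩
    · show 1 - q.2 = δ
      rw [eq]; ring
    · show 1 - p.2 = 1 - δ
      rw [ep]
    · rintro _ ⟨r, hr, rfl⟩
      show δ ≤ 1 - r.2
      linarith [(hTb r hr).2]
    · rintro _ ⟨r, hr, rfl⟩ y hy
      change (y : AddCircle (1 : ℝ)) = r.1 + (r.2 : AddCircle (1 : ℝ)) at hy
      have hb := hTb r hr
      have hx : ((y - r.2 : ℝ) : AddCircle (1 : ℝ)) = r.1 := by
        rw [AddCircle.coe_sub, hy]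
        simp
      obtain ⟨u, a1, a2, a3⟩ := h r hr _ hx
      have e1 : y - r.2 + r.2 = y := by ring
      rw [e1] at a1 a3
      show Hooked c κ σ y (y + (1 - r.2))
      have e2 : y + (1 - r.2) = y - r.2 + 1 := by ring
      have hper : c (y - r.2 + 1) = c (y - r.2) := hJ.2.1 _
      refine ⟨by linarith [hb.2], by linarith [hb.1], u, a1, by linarith, Or.inr ?_⟩
      rw [e2]
      unfold Tri
      rw [hper]
      exact a3

/-- Leaving a box. -/
theorem leave {T : Set (AddCircle (1 : ℝ) × ℝ)} (hT : IsConnected T) {a b x : ℝ} {p q : AddCircle (1 : ℝ) × ℝ}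
    (hp : p ∈ T) (hq : q ∈ T) (hpx : (x : AddCircle (1 : ℝ)) = p.1) (hx : a < x)
    (hx2 : x + p.2 < b) (hq2 : b - a < q.2) :
    ∃ r ∈ T, ∃ z : ℝ, (z : AddCircle (1 : ℝ)) = r.1 ∧
      ((z = a ∧ z + r.2 ≤ b) ∨ (a ≤ z ∧ z + r.2 = b)) := by
  set G : AddCircle (1 : ℝ) × ℝ → ℝ := fun p =>
    (b - a - p.2) / 2 - ‖p.1 - ((a + (b - a - p.2) / 2 : ℝ) : AddCircle (1 : ℝ))‖ with hG
  have hGc : Continuous G := by
    rw [hG]
    refine Continuous.sub (by fun_prop) (continuous_norm.comp (continuous_fst.sub ?_))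
    exact (AddCircle.continuous_mk' 1).comp (by fun_prop)
  have hGp : 0 < G p := by
    rw [hG]
    simp only
    rw [← hpx, ← AddCircle.coe_sub, UnitAddCircle.norm_eq]
    have h1 := round_le (x - (a + (b - a - p.2) / 2)) 0
    rw [Int.cast_zero, sub_zero] at h1
    have h2 : |x - (a + (b - a - p.2) / 2)| < (b - a - p.2) / 2 := by
      rw [abs_lt]
      constructor <;> linarith
    linarith
  have hGq : G q < 0 := by
    rw [hG]
    simp only
    have h1 : 0 ≤ ‖q.1 - ((a + (b - a - q.2) / 2 : ℝ) : AddCircle (1 : ℝ))‖ := norm_nonneg _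
    linarith
  obtain ⟨r, hr, hGr⟩ := hT.isPreconnected.intermediate_value hq hp hGc.continuousOn
    (show (0 : ℝ) ∈ Icc (G q) (G p) from ⟨hGq.le, hGp.le⟩)
  refine ⟨r, hr, ?_⟩
  obtain ⟨w, hw⟩ := exists_lift r.1
  have h3 : ‖r.1 - ((a + (b - a - r.2) / 2 : ℝ) : AddCircle (1 : ℝ))‖ = (b - a - r.2) / 2 := by
    have : G r = (b - a - r.2) / 2 -
      ‖r.1 - ((a + (b - a - r.2) / 2 : ℝ) : AddCircle (1 : ℝ))‖ := rfl
    linarith
  rw [← hw, ← AddCircle.coe_sub, UnitAddCircle.norm_eq] at h3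
  set n : ℤ := round (w - (a + (b - a - r.2) / 2)) with hn
  have hS : 0 ≤ (b - a - r.2) / 2 := by rw [← h3]; exact abs_nonneg _
  have hz : ((w - n : ℝ) : AddCircle (1 : ℝ)) = r.1 := by
    rw [AddCircle.coe_sub, hw, sub_eq_self]
    have := AddCircle.coe_eq_zero_iff (1 : ℝ) (x := (n : ℝ))
    rw [this]
    exact ⟨n, by simp⟩
  refine ⟨w - n, hz, ?_⟩
  have h4 : |w - n - a - (b - a - r.2) / 2| = (b - a - r.2) / 2 := by
    have e : w - n - a - (b - a - r.2) / 2 = w - (a + (b - a - r.2) / 2) - n := by ring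
    rw [e]
    exact h3
  rcases (abs_eq hS).mp h4 with h5 | h5
  · right
    constructor <;> linarith
  · left
    constructor <;> linarith

/-- Chains going down. -/
theorem down {R : ℝ → ℝ → Prop} {α B β δ : ℝ} (hδ : 0 < δ)
    (h : ∀ t, B < t → t ≤ β → ∃ x, α ≤ x ∧ x + δ ≤ t ∧ R x t) (hβ : B < β) :
    ∃ x, α ≤ x ∧ x ≤ B ∧ Relation.TransGen R x β := by
  have key : ∀ n : ℕ, ∀ t, B < t → t ≤ β → t - B ≤ n * δ →
      ∃ x, α ≤ x ∧ x ≤ B ∧ Relation.TransGen R x t := by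
    intro n
    induction n with
    | zero =>
      intro t h1 h2 h3
      simp at h3
      linarith
    | succ n ih =>
      intro t h1 h2 h3
      obtain ⟨x, hx1, hx2, hx3⟩ := h t h1 h2
      rcases le_or_gt x B with h4 | h4
      · exact ⟨x, hx1, h4, Relation.TransGen.single hx3⟩
      · push_cast at h3
        obtain ⟨z, hz1, hz2, hz3⟩ := ih x h4 (by linarith) (by linarith)
        exact ⟨z, hz1, hz2, hz3.tail hx3⟩
  obtain ⟨n, hn⟩ := exists_nat_ge ((β - B) / δ)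
  exact key n β hβ le_rfl (by rwa [div_le_iff₀ hδ] at hn)

/-- Chains going up. -/
theorem up {R : ℝ → ℝ → Prop} {α A β δ : ℝ} (hδ : 0 < δ)
    (h : ∀ t, α ≤ t → t < A → ∃ y, y ≤ β ∧ t + δ ≤ y ∧ R t y) (hα : α < A) :
    ∃ y, A ≤ y ∧ y ≤ β ∧ Relation.TransGen R α y := by
  have key : ∀ n : ℕ, ∀ t, α ≤ t → t < A → A - t ≤ n * δ →
      ∃ y, A ≤ y ∧ y ≤ β ∧ Relation.TransGen R t y := by
    intro n
    induction n with
    | zero =>
      intro t h1 h2 h3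
      simp at h3
      linarith
    | succ n ih =>
      intro t h1 h2 h3
      obtain ⟨x, hx1, hx2, hx3⟩ := h t h1 h2
      rcases le_or_gt A x with h4 | h4
      · exact ⟨x, h4, hx1, Relation.TransGen.single hx3⟩
      · push_cast at h3
        obtain ⟨z, hz1, hz2, hz3⟩ := ih x (by linarith) h4 (by linarith)
        exact ⟨z, hz1, hz2, Relation.TransGen.head hx3 hz3⟩
  obtain ⟨n, hn⟩ := exists_nat_ge ((A - α) / δ)
  exact key n α le_rfl hα (by rwa [div_le_iff₀ hδ] at hn)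

/-- A Jordan curve without inscribed squares has a point which is bad at all scales: each arc
around it contains a long chain of adjacent hooked arcs. -/
theorem principle {c : ℝ → ℂ} (hJ : IsJordan c) (hno : ¬ HasSquare c) {κ : ℂ}
    (hκ : κ = Complex.I ∨ κ = -Complex.I) {σ : ℝ} (hσ : σ = 1 ∨ σ = -1) :
    ∃ b : ℝ, ∀ α β ε : ℝ, α < b → b < β → β < α + 1 → 0 < ε →
      (∃ x, α ≤ x ∧ x ≤ b + ε ∧ Chain c κ σ x β) ∨
      ∃ y, b - ε ≤ y ∧ y ≤ β ∧ Chain c κ σ α y := by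
  have hd : ∀ n : ℕ, (0 : ℝ) < 1 / (n + 3) ∧ (1 : ℝ) / (n + 3) < 1 / 2 := fun n => by
    constructor
    · positivity
    · rw [div_lt_div_iff₀ (by positivity) (by norm_num)]
      have : (0 : ℝ) ≤ n := Nat.cast_nonneg n
      linarith
  have hfam := fun n : ℕ => fam hJ hno hκ hσ (hd n).1 (hd n).2
  choose T hT hp hq hTδ hH using hfam
  choose p hpT hp2 using hp
  choose q hqT hq2 using hq
  obtain ⟨θ, φ, hφ, hlim⟩ := CompactSpace.tendsto_subseq (fun n => (p n).1)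
  obtain ⟨b, hb⟩ := exists_lift θ
  refine ⟨b, fun α β ε0 hα hβ hαβ hε0 => ?_⟩
  obtain ⟨ε, hε, hεε, hεα, hεβ⟩ : ∃ ε, 0 < ε ∧ ε ≤ ε0 ∧ α < b - ε ∧ b + ε < β := by
    refine ⟨min ε0 (min ((b - α) / 2) ((β - b) / 2)), ?_, min_le_left _ _, ?_, ?_⟩
    · have : 0 < b - α := by linarith
      have : 0 < β - b := by linarith
      positivity
    · have h1 : min ε0 (min ((b - α) / 2) ((β - b) / 2)) ≤ (b - α) / 2 :=
        (min_le_right _ _).trans (min_le_left _ _)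
      linarith
    · have h1 : min ε0 (min ((b - α) / 2) ((β - b) / 2)) ≤ (β - b) / 2 :=
        (min_le_right _ _).trans (min_le_right _ _)
      linarith
  have hδlim : Tendsto (fun n : ℕ => (1 : ℝ) / ((φ n : ℕ) + 3)) atTop (𝓝 0) := by
    have h1 : Tendsto (fun n : ℕ => (1 : ℝ) / ((n : ℝ) + 3)) atTop (𝓝 0) := by
      have := (tendsto_const_div_atTop_nhds_zero_nat (1 : ℝ)).comp (tendsto_add_atTop_nat 3)
      refine this.congr fun n => ?_
      simp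
    exact h1.comp hφ.tendsto_atTop
  have hev1 : ∀ᶠ n : ℕ in atTop, (1 : ℝ) / ((φ n : ℕ) + 3) < min (ε / 2) (1 - (β - α)) := by
    refine hδlim.eventually_lt_const ?_
    have : 0 < 1 - (β - α) := by linarith
    positivity
  have hev2 : ∀ᶠ n : ℕ in atTop, ‖(p (φ n)).1 - θ‖ < ε / 2 := by
    have h1 : Tendsto (fun n : ℕ => ‖(p (φ n)).1 - θ‖) atTop (𝓝 0) :=
      tendsto_iff_norm_sub_tendsto_zero.mp hlim
    exact h1.eventually_lt_const (by positivity)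
  obtain ⟨m, hm1, hm2⟩ := (hev1.and hev2).exists
  set n := φ m with hn
  set δ : ℝ := 1 / ((n : ℕ) + 3) with hδdef
  have hδ : 0 < δ := (hd n).1
  have hδ1 : δ < ε / 2 := hm1.trans_le (min_le_left _ _)
  have hδ2 : δ < 1 - (β - α) := hm1.trans_le (min_le_right _ _)
  -- the lift of the low chord
  obtain ⟨x, hx, hxb⟩ : ∃ x : ℝ, (x : AddCircle (1 : ℝ)) = (p n).1 ∧ |x - b| < ε / 2 := by
    obtain ⟨w, hw⟩ := exists_lift (p n).1
    rw [← hw, ← hb, ← AddCircle.coe_sub, UnitAddCircle.norm_eq] at hm2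
    refine ⟨w - round (w - b), ?_, ?_⟩
    · rw [AddCircle.coe_sub, hw, sub_eq_self]
      rw [AddCircle.coe_eq_zero_iff]
      exact ⟨round (w - b), by simp⟩
    · have e : w - round (w - b) - b = w - b - round (w - b) := by ring
      rw [e]
      exact hm2
  rw [abs_lt] at hxb
  have hpn : (p n).2 = δ := hp2 n
  have hqn : (q n).2 = 1 - δ := hq2 n
  have key : ∀ s t, α ≤ s → s < b - ε → b + ε < t → t ≤ β → ∃ z y, z + δ ≤ y ∧
      Hooked c κ σ z y ∧ ((z = s ∧ y ≤ t) ∨ (s ≤ z ∧ y = t)) := by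
    intro s t hs1 hs2 ht1 ht2
    obtain ⟨r, hr, z, hz, hcase⟩ := leave (hT n) (a := s) (b := t) (x := x)
      (hpT n) (hqT n) hx (by linarith [hxb.1]) (by rw [hpn]; linarith [hxb.2])
      (by rw [hqn]; linarith)
    exact ⟨z, z + r.2, by linarith [hTδ n r hr], hH n r hr z hz, hcase⟩
  by_cases hB : ∀ s, α ≤ s → s < b - ε → ∃ y, y ≤ β ∧ s + δ ≤ y ∧ Hooked c κ σ s y
  · right
    obtain ⟨y, h1, h2, h3⟩ := up (R := Hooked c κ σ) hδ hB hεα
    exact ⟨y, by linarith, h2, h3⟩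
  · left
    push Not at hB
    obtain ⟨s, hs1, hs2, hs3⟩ := hB
    have hA : ∀ t, b + ε < t → t ≤ β → ∃ z, α ≤ z ∧ z + δ ≤ t ∧ Hooked c κ σ z t := by
      intro t ht1 ht2
      obtain ⟨z, y, h1, h2, h3 | h3⟩ := key s t hs1 hs2 ht1 ht2
      · exfalso
        rw [h3.1] at h1 h2
        exact hs3 y (by linarith [h3.2]) h1 h2
      · rw [h3.2] at h1 h2
        exact ⟨z, by linarith [h3.1], h1, h2⟩
    obtain ⟨z, h1, h2, h3⟩ := down (R := Hooked c κ σ) hδ hA hεβ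
    exact ⟨z, h1, by linarith, h3⟩

end Q218.SQ
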