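import Pool.Agent.Q218.SQ.Length

/-!
# Parametrisations with derivatives
-/

namespace Q218.SQ

open Q150.Peg Set Filter Topology

theorem short_of_lip {c : ℝ → ℂ} {K m : ℝ} (hKm : K < (1 + √2) * m) {x y : ℝ} (hxy : x < y)
    (h1 : ∀ s ∈ Icc x y, ∀ t ∈ Icc x y, s ≤ t → ‖c t - c s‖ ≤ K * (t - s))
    (h2 : m * (y - x) ≤ ‖c y - c x‖) : ShortArc c x y := by
  have hK : 0 ≤ K := by
    have h3 := h1 x (left_mem_Icc.mpr hxy.le) y (right_mem_Icc.mpr hxy.le) hxy.le
    have h4 : 0 ≤ K * (y - x) := (norm_nonneg _).trans h3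
    exact le_of_mul_le_mul_right (by linarith) (sub_pos.mpr hxy)
  have hlip : LipschitzOnWith (Real.toNNReal K) c (Icc x y) := by
    refine LipschitzOnWith.of_dist_le_mul fun s hs t ht => ?_
    rw [Real.coe_toNNReal K hK, dist_eq_norm, Real.dist_eq]
    rcases le_total s t with h | h
    · have := h1 s hs t ht h
      rw [norm_sub_rev, abs_sub_comm, abs_of_nonneg (by linarith)]
      exact this
    · have := h1 t ht s hs h
      rw [abs_of_nonneg (by linarith)]
      exact this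
  have hv : eVariationOn c (Icc x y) ≤ ENNReal.ofReal (K * (y - x)) := by
    have h3 := hlip.comp_eVariationOn_le (g := id) (s := Icc x y) (mapsTo_id _)
    have h4 : eVariationOn (id : ℝ → ℝ) (Icc x y) ≤ ENNReal.ofReal (y - x) := by
      have h5 := (monotoneOn_id (s := Icc x y)).eVariationOn_eq (left_mem_Icc.mpr hxy.le)
        (right_mem_Icc.mpr hxy.le)
      rw [inter_self] at h5
      exact h5.le
    refine h3.trans ((mul_le_mul_right h4 _).trans ?_)
    rw [ENNReal.ofReal_mul hK]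
    rfl
  refine lt_of_le_of_lt hv ?_
  rw [ENNReal.ofReal_lt_ofReal_iff_of_nonneg (mul_nonneg hK (sub_nonneg.mpr hxy.le))]
  have h6 : 0 < y - x := sub_pos.mpr hxy
  have h7 : 0 < 1 + √2 := by positivity
  calc K * (y - x) < (1 + √2) * m * (y - x) := mul_lt_mul_of_pos_right hKm h6
    _ = (1 + √2) * (m * (y - x)) := by ring
    _ ≤ (1 + √2) * ‖c y - c x‖ := mul_le_mul_of_nonneg_left h2 h7.le

theorem goodArc_of_lip {c : ℝ → ℂ} {b ε K m : ℝ} (hε : 0 < ε) (hKm : K < (1 + √2) * m)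
    (h1 : ∀ x y, b - ε < x → x ≤ y → y < b + ε → ‖c y - c x‖ ≤ K * (y - x))
    (h2 : ∀ x y, b - ε < x → x ≤ b → b ≤ y → y < b + ε → m * (y - x) ≤ ‖c y - c x‖) :
    GoodArc c b := by
  obtain ⟨η, hη, hη1, hη2⟩ : ∃ η, 0 < η ∧ η < ε ∧ η < 1 / 2 := by
    refine ⟨min (ε / 2) (1 / 4), by positivity, ?_, ?_⟩
    · exact (min_le_left _ _).trans_lt (by linarith)
    · exact (min_le_right _ _).trans_lt (by norm_num)
  refine ⟨b - η, b + η, by linarith, by linarith, by linarith, fun x hx => ?_, fun y hy => ?_⟩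
  · refine short_of_lip hKm (by linarith [hx.2]) (fun s hs t ht hst => ?_) ?_
    · exact h1 s t (by linarith [hs.1, hx.1]) hst (by linarith [ht.2])
    · exact h2 x (b + η) (by linarith [hx.1]) hx.2 (by linarith) (by linarith)
  · refine short_of_lip hKm (by linarith [hy.1]) (fun s hs t ht hst => ?_) ?_
    · exact h1 s t (by linarith [hs.1]) hst (by linarith [ht.2, hy.2])
    · exact h2 (b - η) y (by linarith) (by linarith) hy.1 (by linarith [hy.2])

theorem goodArc_of_deriv {c : ℝ → ℂ} {b ε K : ℝ} {v w : ℂ} (hε : 0 < ε)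
    (hv : HasDerivWithinAt c v (Iic b) b) (hw : HasDerivWithinAt c w (Ici b) b)
    (hK : ∀ z ∈ segment ℝ v w, K < (1 + √2) * ‖z‖)
    (h1 : ∀ x y, b - ε < x → x ≤ y → y < b + ε → ‖c y - c x‖ ≤ K * (y - x)) :
    GoodArc c b := by
  have h7 : 0 < 1 + √2 := by positivity
  obtain ⟨z0, hz0, hmin⟩ : ∃ z0 ∈ segment ℝ v w, ∀ z ∈ segment ℝ v w, ‖z0‖ ≤ ‖z‖ := by
    have hc : IsCompact (segment ℝ v w) := by
      rw [segment_eq_image]
      exact isCompact_Icc.image (by fun_prop)
    obtain ⟨z0, h3, h4⟩ := hc.exists_isMinOn ⟨v, left_mem_segment ℝ v w⟩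
      (continuous_norm.continuousOn)
    exact ⟨z0, h3, fun z hz => h4 hz⟩
  have h0 := hK z0 hz0
  obtain ⟨η, hη, hη1⟩ : ∃ η > 0, K < (1 + √2) * (‖z0‖ - η) := by
    refine ⟨((1 + √2) * ‖z0‖ - K) / (2 * (1 + √2)), div_pos (by linarith) (by positivity), ?_⟩
    have e : (1 + √2) * (‖z0‖ - ((1 + √2) * ‖z0‖ - K) / (2 * (1 + √2)))
        = ((1 + √2) * ‖z0‖ + K) / 2 := by
      field_simp
      ring
    rw [e]
    linarith
  have e1 : ∀ᶠ x in 𝓝[Iic b] b, ‖c x - c b - (x - b) • v‖ ≤ η * ‖x - b‖ :=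
    (hasDerivWithinAt_iff_isLittleO.mp hv).bound hη
  have e2 : ∀ᶠ x in 𝓝[Ici b] b, ‖c x - c b - (x - b) • w‖ ≤ η * ‖x - b‖ :=
    (hasDerivWithinAt_iff_isLittleO.mp hw).bound hη
  rw [eventually_nhdsWithin_iff] at e1 e2
  obtain ⟨ρ, hρ, h3⟩ := Metric.eventually_nhds_iff.mp (e1.and e2)
  refine goodArc_of_lip (ε := min ε ρ) (m := ‖z0‖ - η) (lt_min hε hρ) hη1
    (fun x y hx hxy hy => ?_) (fun x y hx hxb hby hy => ?_)
  · exact h1 x y (by linarith [min_le_left ε ρ]) hxy (by linarith [min_le_left ε ρ])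
  · have a1 := (h3 (y := x) (by
      rw [Real.dist_eq, abs_of_nonpos (by linarith)]
      linarith [min_le_right ε ρ])).1 hxb
    have a2 := (h3 (y := y) (by
      rw [Real.dist_eq, abs_of_nonneg (by linarith)]
      linarith [min_le_right ε ρ])).2 hby
    rw [Real.norm_eq_abs, abs_of_nonpos (by linarith)] at a1
    rw [Real.norm_eq_abs, abs_of_nonneg (by linarith)] at a2
    rcases eq_or_lt_of_le (hxb.trans hby) with h4 | h4
    · rw [h4]; simp
    · have hyx : 0 < y - x := by linarith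
      set z : ℂ := ((b - x) / (y - x)) • v + ((y - b) / (y - x)) • w with hz
      have hzm : z ∈ segment ℝ v w := by
        refine ⟨(b - x) / (y - x), (y - b) / (y - x), div_nonneg (by linarith) hyx.le,
          div_nonneg (by linarith) hyx.le, ?_, rfl⟩
        field_simp
        ring
      have h5 := hmin z hzm
      have h6 : c y - c x = (y - x) • z + ((c y - c b - (y - b) • w)
          - (c x - c b - (x - b) • v)) := by
        rw [hz, smul_add, smul_smul, smul_smul, mul_div_cancel₀ _ hyx.ne',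
          mul_div_cancel₀ _ hyx.ne']
        simp only [Complex.real_smul]
        push_cast
        ring
      have h8 : ‖(y - x) • z‖ = (y - x) * ‖z‖ := by
        rw [norm_smul, Real.norm_eq_abs, abs_of_pos hyx]
      have h9 : ‖(y - x) • z‖ ≤ ‖c y - c x‖ + ‖(c y - c b - (y - b) • w)
          - (c x - c b - (x - b) • v)‖ := by
        have e : (y - x) • z = (c y - c x) - ((c y - c b - (y - b) • w)
          - (c x - c b - (x - b) • v)) := by rw [h6]; ring
        rw [e]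
        exact norm_sub_le _ _
      have h10 : ‖(c y - c b - (y - b) • w) - (c x - c b - (x - b) • v)‖ ≤ η * (y - x) := by
        refine (norm_sub_le _ _).trans ?_
        nlinarith
      have h11 : (y - x) * ‖z0‖ ≤ (y - x) * ‖z‖ := mul_le_mul_of_nonneg_left h5 hyx.le
      nlinarith

theorem squares_oneSided {c : ℝ → ℂ} (hJ : IsJordan c)
    (h : ∀ b, ∃ v w : ℂ, ∃ K ε : ℝ, 0 < ε ∧ HasDerivWithinAt c v (Iic b) b ∧
      HasDerivWithinAt c w (Ici b) b ∧ (∀ z ∈ segment ℝ v w, K < (1 + √2) * ‖z‖) ∧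
      ∀ x y, b - ε < x → x ≤ y → y < b + ε → ‖c y - c x‖ ≤ K * (y - x)) : HasSquare c := by
  refine squares_pointwise hJ fun b => Or.inl ?_
  obtain ⟨v, w, K, ε, hε, hv, hw, hK, h1⟩ := h b
  exact goodArc_of_deriv hε hv hw hK h1

theorem squares_deriv {c : ℝ → ℂ} (hJ : IsJordan c) (hd : Differentiable ℝ c)
    (h : ∀ b, ∃ K < (1 + √2) * ‖deriv c b‖, ∀ᶠ t in 𝓝 b, ‖deriv c t‖ ≤ K) : HasSquare c := by
  refine squares_oneSided hJ fun b => ?_
  obtain ⟨K, hK, hev⟩ := h b
  obtain ⟨ε, hε, h1⟩ := Metric.eventually_nhds_iff.mp hev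
  refine ⟨deriv c b, deriv c b, K, ε, hε, (hd b).hasDerivAt.hasDerivWithinAt,
    (hd b).hasDerivAt.hasDerivWithinAt, ?_, fun x y hx hxy hy => ?_⟩
  · intro z hz
    rw [segment_same, mem_singleton_iff] at hz
    rw [hz]
    exact hK
  · have hx' : x ∈ Metric.ball b ε := by
      rw [Metric.mem_ball, Real.dist_eq, abs_lt]; constructor <;> linarith
    have hy' : y ∈ Metric.ball b ε := by
      rw [Metric.mem_ball, Real.dist_eq, abs_lt]; constructor <;> linarith
    have h2 := (convex_ball b ε).norm_image_sub_le_of_norm_deriv_le (f := c) (C := K)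
      (fun t _ => hd t) (fun t ht => h1 (Metric.mem_ball.mp ht)) hx' hy'
    rwa [Real.norm_eq_abs, abs_of_nonneg (by linarith)] at h2

end Q218.SQ
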