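import Pool.Agent.Q218.SQ.Chain

/-!
# Chains of hooked arcs are long
-/

namespace Q218.SQ

open Q150.Peg Set Filter Topology

theorem hooked_norm {c : ℝ → ℂ} {κ : ℂ} (hκ : κ = Complex.I ∨ κ = -Complex.I) {σ x y u : ℝ}
    (h : Tri c κ σ x y u ∨ Tri c κ σ y x u) :
    ‖c u - c x‖ + ‖c y - c u‖ = (1 + √2) * ‖c y - c x‖ := by
  rcases h with h | h
  · have e := h.1
    have e1 : c u - c x = κ * (c y - c x) := by linear_combination e
    have e2 : c y - c u = (1 - κ) * (c y - c x) := by linear_combination -e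
    rw [e1, e2, norm_mul, norm_mul, norm_kappa hκ, norm_one_sub_kappa hκ]
    ring
  · have e := h.1
    have e1 : c u - c x = (1 - κ) * (c y - c x) := by linear_combination e
    have e2 : c y - c u = κ * (c y - c x) := by linear_combination -e
    rw [e1, e2, norm_mul, norm_mul, norm_kappa hκ, norm_one_sub_kappa hκ]
    ring

theorem var_add (c : ℝ → ℂ) {x u y : ℝ} (h1 : x ≤ u) (h2 : u ≤ y) :
    eVariationOn c (Icc x y) = eVariationOn c (Icc x u) + eVariationOn c (Icc u y) := by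
  have := eVariationOn.Icc_add_Icc c (s := univ) h1 h2 (mem_univ u)
  simpa using this.symm

theorem var_ge (c : ℝ → ℂ) {x y : ℝ} (h : x ≤ y) :
    ENNReal.ofReal ‖c y - c x‖ ≤ eVariationOn c (Icc x y) := by
  rw [← dist_eq_norm, ← edist_dist]
  exact eVariationOn.edist_le c (right_mem_Icc.mpr h) (left_mem_Icc.mpr h)

theorem hooked_var {c : ℝ → ℂ} {κ : ℂ} (hκ : κ = Complex.I ∨ κ = -Complex.I) {σ x y : ℝ}
    (h : Hooked c κ σ x y) :
    ENNReal.ofReal ((1 + √2) * ‖c y - c x‖) ≤ eVariationOn c (Icc x y) := by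
  obtain ⟨-, -, u, h1, h2, h3⟩ := h
  rw [← hooked_norm hκ h3, ENNReal.ofReal_add (norm_nonneg _) (norm_nonneg _),
    var_add c h1.le h2.le]
  exact add_le_add (var_ge c h1.le) (var_ge c h2.le)

/-- Chains are long. -/
theorem chain_var {c : ℝ → ℂ} {κ : ℂ} (hκ : κ = Complex.I ∨ κ = -Complex.I) {σ x y : ℝ}
    (h : Chain c κ σ x y) :
    x < y ∧ ENNReal.ofReal ((1 + √2) * ‖c y - c x‖) ≤ eVariationOn c (Icc x y) := by
  unfold Chain at h
  induction h with
  | single h => exact ⟨h.1, hooked_var hκ h⟩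
  | tail hab hbc ih =>
    rename_i p q
    obtain ⟨h1, h2⟩ := ih
    refine ⟨h1.trans hbc.1, ?_⟩
    rw [var_add c h1.le hbc.1.le]
    refine le_trans ?_ (add_le_add h2 (hooked_var hκ hbc))
    rw [← ENNReal.ofReal_add (by positivity) (by positivity)]
    refine ENNReal.ofReal_le_ofReal ?_
    have h3 : ‖c q - c x‖ ≤ ‖c p - c x‖ + ‖c q - c p‖ := by
      have e : c q - c x = (c p - c x) + (c q - c p) := by ring
      rw [e]
      exact norm_add_le _ _
    have h4 : 0 ≤ 1 + √2 := by positivity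
    nlinarith

/-- Openness of the shortness conditions. -/
theorem short_near {c : ℝ → ℂ} (hc : Continuous c) {b β : ℝ} (h : ShortArc c b β) :
    ∃ ε > 0, ∀ x, b ≤ x → x ≤ b + ε → ShortArc c x β := by
  unfold ShortArc at h
  obtain ⟨L, hL⟩ : ∃ L : ℝ, L = (eVariationOn c (Icc b β)).toReal := ⟨_, rfl⟩
  have hfin : eVariationOn c (Icc b β) ≠ ⊤ := ne_top_of_lt h
  have hL0 : 0 ≤ L := by rw [hL]; exact ENNReal.toReal_nonneg
  have hLe : eVariationOn c (Icc b β) = ENNReal.ofReal L := by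
    rw [hL, ENNReal.ofReal_toReal hfin]
  rw [hLe, ENNReal.ofReal_lt_ofReal_iff_of_nonneg hL0] at h
  have hcont : Continuous fun x => (1 + √2) * ‖c β - c x‖ := by fun_prop
  have hev : ∀ᶠ x in 𝓝 b, L < (1 + √2) * ‖c β - c x‖ :=
    hcont.continuousAt.eventually_const_lt h
  obtain ⟨ε, hε, hε2⟩ := Metric.eventually_nhds_iff.mp hev
  refine ⟨ε / 2, by positivity, fun x hx1 hx2 => ?_⟩
  have h1 : L < (1 + √2) * ‖c β - c x‖ := by
    apply hε2
    rw [Real.dist_eq, abs_of_nonneg (by linarith)]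
    linarith
  unfold ShortArc
  refine lt_of_le_of_lt (eVariationOn.mono c (Icc_subset_Icc_left hx1)) ?_
  rw [hLe]
  exact (ENNReal.ofReal_lt_ofReal_iff_of_nonneg hL0).mpr h1

theorem short_near' {c : ℝ → ℂ} (hc : Continuous c) {b α : ℝ} (h : ShortArc c α b) :
    ∃ ε > 0, ∀ y, b - ε ≤ y → y ≤ b → ShortArc c α y := by
  unfold ShortArc at h
  obtain ⟨L, hL⟩ : ∃ L : ℝ, L = (eVariationOn c (Icc α b)).toReal := ⟨_, rfl⟩
  have hfin : eVariationOn c (Icc α b) ≠ ⊤ := ne_top_of_lt h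
  have hL0 : 0 ≤ L := by rw [hL]; exact ENNReal.toReal_nonneg
  have hLe : eVariationOn c (Icc α b) = ENNReal.ofReal L := by
    rw [hL, ENNReal.ofReal_toReal hfin]
  rw [hLe, ENNReal.ofReal_lt_ofReal_iff_of_nonneg hL0] at h
  have hcont : Continuous fun y => (1 + √2) * ‖c y - c α‖ := by fun_prop
  have hev : ∀ᶠ y in 𝓝 b, L < (1 + √2) * ‖c y - c α‖ :=
    hcont.continuousAt.eventually_const_lt h
  obtain ⟨ε, hε, hε2⟩ := Metric.eventually_nhds_iff.mp hev
  refine ⟨ε / 2, by positivity, fun y hy1 hy2 => ?_⟩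
  have h1 : L < (1 + √2) * ‖c y - c α‖ := by
    apply hε2
    rw [Real.dist_eq, abs_of_nonpos (by linarith)]
    linarith
  unfold ShortArc
  refine lt_of_le_of_lt (eVariationOn.mono c (Icc_subset_Icc_right hy2)) ?_
  rw [hLe]
  exact (ENNReal.ofReal_lt_ofReal_iff_of_nonneg hL0).mpr h1

/-- Every point good: there is a square. -/
theorem squares_pointwise {c : ℝ → ℂ} (hJ : IsJordan c)
    (h : ∀ b, GoodArc c b ∨ LocalThreePoint c b) : HasSquare c := by
  by_contra hno
  have hκ : (Complex.I : ℂ) = Complex.I ∨ Complex.I = -Complex.I := Or.inl rfl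
  obtain ⟨b, hb⟩ := principle hJ hno hκ (σ := 1) (Or.inl rfl)
  rcases h b with ⟨α, β, hα, hβ, hαβ, h1, h2⟩ | ⟨ε, hε, h3⟩
  · obtain ⟨ε1, hε1, hs1⟩ := short_near hJ.1 (h1 b ⟨hα.le, le_rfl⟩)
    obtain ⟨ε2, hε2, hs2⟩ := short_near' hJ.1 (h2 b ⟨le_rfl, hβ.le⟩)
    rcases hb α β (min ε1 ε2) hα hβ hαβ (lt_min hε1 hε2) with ⟨x, hx1, hx2, hx3⟩ |
      ⟨y, hy1, hy2, hy3⟩
    · have h4 : ShortArc c x β := by
        rcases le_total x b with h5 | h5
        · exact h1 x ⟨hx1, h5⟩
        · exact hs1 x h5 (hx2.trans (by linarith [min_le_left ε1 ε2]))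
      exact absurd (chain_var hκ hx3).2 (not_le.mpr h4)
    · have h4 : ShortArc c α y := by
        rcases le_total b y with h5 | h5
        · exact h2 y ⟨h5, hy2⟩
        · exact hs2 y (le_trans (by linarith [min_le_right ε1 ε2]) hy1) h5
      exact absurd (chain_var hκ hy3).2 (not_le.mpr h4)
  · -- all hooked arcs of the chain are inside the neighbourhood
    obtain ⟨η, hη, hη1, hη2⟩ : ∃ η, 0 < η ∧ η < ε / 2 ∧ η < 1 / 4 := by
      refine ⟨min (ε / 4) (1 / 8), by positivity, ?_, ?_⟩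
      · exact (min_le_left _ _).trans_lt (by linarith)
      · exact (min_le_right _ _).trans_lt (by norm_num)
    have hno2 : ∀ x y, b - ε < x → y < b + ε → ¬ Hooked c Complex.I 1 x y := by
      rintro x y hx hy ⟨-, -, u, h4, h5, h6⟩
      have h7 := h3 x u y hx h4 h5 hy
      unfold ThreePoint at h7
      rw [hooked_norm hκ h6] at h7
      exact lt_irrefl _ h7
    rcases hb (b - η) (b + η) η (by linarith) (by linarith) (by linarith) hη with
      ⟨x, hx1, hx2, hx3⟩ | ⟨y, hy1, hy2, hy3⟩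
    · obtain ⟨z, hz1, hz2⟩ : ∃ z, x ≤ z ∧ Hooked c Complex.I 1 z (b + η) := by
        unfold Chain at hx3
        cases hx3 with
        | single h => exact ⟨x, le_rfl, h⟩
        | tail h1 h2 => exact ⟨_, (chain_var hκ h1).1.le, h2⟩
      exact hno2 z (b + η) (by linarith) (by linarith) hz2
    · obtain ⟨z, hz1, hz2⟩ : ∃ z, z ≤ y ∧ Hooked c Complex.I 1 (b - η) z := by
        unfold Chain at hy3
        rw [Relation.TransGen.head'_iff] at hy3
        obtain ⟨z, h1, h2⟩ := hy3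
        refine ⟨z, ?_, h1⟩
        rcases Relation.reflTransGen_iff_eq_or_transGen.mp h2 with h4 | h4
        · exact h4.ge
        · exact (chain_var hκ h4).1.le
      exact hno2 (b - η) z (by linarith) (by linarith) hz2

end Q218.SQ
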